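import Pool.Agent.H38.Kp.Fin

open Pool.Agent.H38.NP Pool.Agent.H38.Kp Pool.Agent.H36.Sig2

theorem Pool.Agent.Results.MP_8f64b1_lc.Hard.result :
    Pi2Hard (lang fun p : ℕ × List (ℕ × ℕ) => KernelPerfect (arcOf p.1 p.2)) ∧
      (InCoNP (lang fun p : ℕ × List (ℕ × ℕ) => KernelPerfect (arcOf p.1 p.2)) →
        ∀ A, InPi2 A → InCoNP A) :=
  have h := kp_s2h.piHard (Q := fun p => KernelPerfect (arcOf p.1 p.2)) fun _ _ => Iff.rfl
  ⟨h, fun hc A hA => inCoNP_of_reduces (h A hA) hc⟩
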